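import Pool.Agent.H75.OM.TC

/-!
# Row SUB of omn_modules: the oracle gates are replaced by circuits
-/

set_option autoImplicit false

namespace Pool.Agent.H46.OM.SUB

open Finset Pool.Agent.H6.NB Pool.Agent.H70.OQ Pool.Agent.H70.EH Pool.Agent.H70.EI Pool.Agent.H78.XQ
open Pool.Agent.H75.OM

theorem crun_nil (O : List Bool → Bool) (v : List Bool) : crun O [] v = v := rfl

theorem crun_append (O : List Bool → Bool) (C D : Circ) (v : List Bool) :
    crun O (C ++ D) v = crun O D (crun O C v) := by
  unfold crun
  rw [List.foldl_append]

theorem crun_one (O : List Bool → Bool) (C : Circ) (g : Gate) (v : List Bool) :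
    crun O (C ++ [g]) v = crun O C v ++ [g.val O (crun O C v)] := by
  rw [crun_append]
  rfl

theorem crun_length (O : List Bool → Bool) (C : Circ) (v : List Bool) :
    (crun O C v).length = v.length + C.length := by
  induction C using List.reverseRecOn with
  | nil => simp [crun]
  | append_singleton C g ih =>
    rw [crun_one, List.length_append, ih, List.length_append]
    simp only [List.length_singleton]
    omega

theorem csize_append (C D : Circ) : csize (C ++ D) = csize C + csize D := by
  unfold csize
  rw [List.map_append, List.sum_append]

theorem csize_one (g : Gate) : csize [g] = g.size := by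
  unfold csize
  simp

/-- renaming does not change the size -/
theorem csize_ren (n m : ℕ) (ι : ℕ → ℕ) (D : Circ) :
    csize (D.map (Gate.ren n m ι)) = csize D := by
  unfold csize
  rw [List.map_map]
  congr 1
  refine List.map_congr_left fun g _ => ?_
  cases g with
  | nand i j => rfl
  | ask l => simp [Gate.ren, Gate.size]

theorem noask_ren (n m : ℕ) (ι : ℕ → ℕ) (D : Circ) (h : NoAsk D) :
    NoAsk (D.map (Gate.ren n m ι)) := by
  intro g hg
  obtain ⟨g', hg', rfl⟩ := List.mem_map.mp hg
  obtain ⟨i, j, rfl⟩ := h g' hg'
  exact ⟨_, _, rfl⟩

theorem noask_append (C D : Circ) (hC : NoAsk C) (hD : NoAsk D) : NoAsk (C ++ D) := by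
  intro g hg
  rcases List.mem_append.mp hg with h | h
  · exact hC g h
  · exact hD g h

/-- the output is the last wire -/
theorem cout_eq (O : List Bool → Bool) (C : Circ) (v : List Bool) (hC : C ≠ []) :
    cout O C v = (crun O C v).getD (v.length + C.length - 1) false := by
  have hpos : 0 < C.length := List.length_pos_iff.mpr hC
  have hl := crun_length O C v
  unfold cout
  have hne : (crun O C v).drop v.length ≠ [] := by
    intro h
    have := congrArg List.length h
    rw [List.length_drop, hl, List.length_nil] at this
    omega
  rw [List.getLastD_eq_getLast?, List.getLast?_drop, if_neg (by omega),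
    List.getLast?_eq_getElem?, hl, List.getD_eq_getElem?_getD]

theorem cout_nil (O : List Bool → Bool) (v : List Bool) : cout O [] v = false := by
  unfold cout
  rw [crun_nil, List.drop_length]
  rfl

theorem getD_left (a b : List Bool) (i : ℕ) (h : i < a.length) :
    (a ++ b).getD i false = a.getD i false := by
  rw [List.getD_append _ _ _ _ h]

theorem getD_out (a : List Bool) (i : ℕ) (h : a.length ≤ i) : a.getD i false = false :=
  List.getD_eq_default _ _ h

/-- the new circuit and the new numbers of the wires -/
structure Sm (O : List Bool → Bool) (P n : ℕ) (C C' : Circ) (ι : ℕ → ℕ) : Prop where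
  na : NoAsk C'
  sz : csize C' ≤ csize C * (P + 1)
  ni : C = [] → C' = []
  nn : C ≠ [] → C' ≠ [] ∧ ι (n + C.length - 1) = n + C'.length - 1
  lt : ∀ i < n + C.length, ι i < n + C'.length
  eq : ∀ x : List Bool, x.length = n → ∀ i < n + C.length,
    (crun (fun _ => false) C' x).getD (ι i) false = (crun O C x).getD i false

theorem step_nand (O : List Bool → Bool) (P n : ℕ) (C C' : Circ) (ι : ℕ → ℕ)
    (h : Sm O P n C C' ι) (i j : ℕ) :
    ∃ (C'' : Circ) (ι' : ℕ → ℕ), Sm O P n (C ++ [Gate.nand i j]) C'' ι' := by
  let τ : ℕ → ℕ := fun i => if i < n + C.length then ι i else n + C'.length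
  have hτ : ∀ x : List Bool, x.length = n → ∀ i,
      (crun (fun _ => false) C' x).getD (τ i) false = (crun O C x).getD i false := by
    intro x hx i
    by_cases hi : i < n + C.length
    · have : τ i = ι i := if_pos hi
      rw [this]
      exact h.eq x hx i hi
    · have : τ i = n + C'.length := if_neg hi
      rw [this, getD_out _ _ (by rw [crun_length, hx]), getD_out _ _ (by
        rw [crun_length, hx]; omega)]
  refine ⟨C' ++ [Gate.nand (τ i) (τ j)], τ, ?_, ?_, ?_, ?_, ?_, ?_⟩
  · refine noask_append _ _ h.na ?_
    intro g hg
    rw [List.mem_singleton] at hg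
    exact ⟨_, _, hg⟩
  · have h1 := h.sz
    rw [csize_append, csize_append, csize_one, csize_one]
    simp only [Gate.size]
    nlinarith
  · intro hh
    simp at hh
  · intro _
    refine ⟨by simp, ?_⟩
    simp only [List.length_append, List.length_singleton]
    have : τ (n + (C.length + 1) - 1) = n + C'.length := if_neg (by omega)
    rw [this]
    omega
  · intro t ht
    simp only [List.length_append, List.length_singleton] at ht ⊢
    by_cases hi : t < n + C.length
    · have h1 : τ t = ι t := if_pos hi
      have := h.lt t hi
      omega
    · have h1 : τ t = n + C'.length := if_neg hi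
      omega
  · intro x hx t ht
    simp only [List.length_append, List.length_singleton] at ht
    rw [crun_one, crun_one]
    have hl' : (crun (fun _ => false) C' x).length = n + C'.length := by
      rw [crun_length, hx]
    have hl : (crun O C x).length = n + C.length := by
      rw [crun_length, hx]
    by_cases hi : t < n + C.length
    · have h1 : τ t = ι t := if_pos hi
      rw [h1, getD_left _ _ _ (by rw [hl']; exact h.lt t hi), getD_left _ _ _ (by
        rw [hl]; exact hi), h.eq x hx t hi]
    · have h1 : τ t = n + C'.length := if_neg hi
      have h2 : t = n + C.length := by omega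
      rw [h1, h2, List.getD_append_right _ _ _ _ (by rw [hl']),
        List.getD_append_right _ _ _ _ (by rw [hl]), hl', hl, Nat.sub_self, Nat.sub_self]
      simp only [List.getD_cons_zero, Gate.val, hτ x hx]

theorem step_ask (h1 : T_INL) (O : List Bool → Bool) (P n : ℕ) (C C' : Circ) (ι : ℕ → ℕ)
    (h : Sm O P n C C' ι) (l : List ℕ) (hP : Cm l.length P O) :
    ∃ (C'' : Circ) (ι' : ℕ → ℕ), Sm O P n (C ++ [Gate.ask l]) C'' ι' := by
  obtain ⟨D, hD, hD0, hDs, hDe⟩ := hP
  have hDpos : 0 < D.length := List.length_pos_iff.mpr hD0
  let τ : ℕ → ℕ := fun t => if l.getD t 0 < n + C.length then ι (l.getD t 0) else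
    n + C'.length + D.length
  let κ : ℕ → ℕ := fun i => if i < n + C.length then ι i else n + C'.length + D.length - 1
  have hrun : ∀ x : List Bool, x.length = n →
      crun (fun _ => false) (D.map (Gate.ren l.length (n + C'.length) τ))
        (crun (fun _ => false) C' x) = crun (fun _ => false) C' x ++
        (crun (fun _ => false) D (l.map fun i => (crun O C x).getD i false)).drop l.length := by
    intro x hx
    have hl' : (crun (fun _ => false) C' x).length = n + C'.length := by
      rw [crun_length, hx]
    have hl : (crun O C x).length = n + C.length := by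
      rw [crun_length, hx]
    have e := h1 (fun _ => false) D (l.map fun i => (crun O C x).getD i false)
      (crun (fun _ => false) C' x) τ ?_
    · rw [List.length_map, hl'] at e
      exact e
    · intro i hi
      rw [List.length_map] at hi
      have e1 : (l.map fun i => (crun O C x).getD i false).getD i false =
          (crun O C x).getD (l.getD i 0) false := by
        rw [List.getD_eq_getElem _ _ (by rw [List.length_map]; exact hi), List.getElem_map,
          List.getD_eq_getElem _ _ hi]
      rw [e1, hl']
      by_cases hh : l.getD i 0 < n + C.length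
      · have e2 : τ i = ι (l.getD i 0) := if_pos hh
        rw [e2]
        exact ⟨Or.inl (h.lt _ hh), h.eq x hx _ hh⟩
      · have e2 : τ i = n + C'.length + D.length := if_neg hh
        rw [e2]
        refine ⟨Or.inr (le_refl _), ?_⟩
        rw [getD_out _ _ (by rw [hl']; omega), getD_out _ _ (by rw [hl]; omega)]
  refine ⟨C' ++ D.map (Gate.ren l.length (n + C'.length) τ), κ, ?_, ?_, ?_, ?_, ?_, ?_⟩
  · exact noask_append _ _ h.na (noask_ren _ _ _ _ hD)
  · have h2 := h.sz
    rw [csize_append, csize_append, csize_one, csize_ren]
    simp only [Gate.size]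
    have h3 : (csize C + (l.length + 1)) * (P + 1) =
        csize C * (P + 1) + l.length * (P + 1) + (P + 1) := by ring
    rw [h3]
    have h4 := Nat.zero_le (l.length * (P + 1))
    omega
  · intro hh
    simp at hh
  · intro _
    refine ⟨?_, ?_⟩
    · intro hh
      have := congrArg List.length hh
      simp only [List.length_append, List.length_map, List.length_nil] at this
      omega
    · simp only [List.length_append, List.length_singleton, List.length_map]
      have : κ (n + (C.length + 1) - 1) = n + C'.length + D.length - 1 := if_neg (by omega)
      rw [this]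
      omega
  · intro t ht
    simp only [List.length_append, List.length_singleton, List.length_map] at ht ⊢
    by_cases hi : t < n + C.length
    · have h1 : κ t = ι t := if_pos hi
      have := h.lt t hi
      omega
    · have h1 : κ t = n + C'.length + D.length - 1 := if_neg hi
      omega
  · intro x hx t ht
    simp only [List.length_append, List.length_singleton] at ht
    rw [crun_one, crun_append, hrun x hx]
    have hl' : (crun (fun _ => false) C' x).length = n + C'.length := by
      rw [crun_length, hx]
    have hl : (crun O C x).length = n + C.length := by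
      rw [crun_length, hx]
    by_cases hi : t < n + C.length
    · have h1 : κ t = ι t := if_pos hi
      rw [h1, getD_left _ _ _ (by rw [hl']; exact h.lt t hi), getD_left _ _ _ (by
        rw [hl]; exact hi), h.eq x hx t hi]
    · have h1 : κ t = n + C'.length + D.length - 1 := if_neg hi
      have h2 : t = n + C.length := by omega
      set y : List Bool := l.map fun i => (crun O C x).getD i false with hy
      have hyl : y.length = l.length := by rw [hy, List.length_map]
      have e3 := cout_eq (fun _ => false) D y hD0
      rw [hDe y hyl] at e3
      rw [h1, h2, List.getD_append_right _ _ _ _ (by rw [hl']; omega),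
        List.getD_append_right _ _ _ _ (by rw [hl]), hl', hl, Nat.sub_self]
      simp only [List.getD_cons_zero, Gate.val]
      rw [← hy, e3, List.getD_eq_getElem?_getD, List.getElem?_drop, List.getD_eq_getElem?_getD, hyl]
      congr 2
      omega

theorem main (h1 : T_INL) (O : List Bool → Bool) (P s n : ℕ) (hP : ∀ m ≤ s, Cm m P O)
    (C : Circ) : csize C ≤ s → ∃ (C' : Circ) (ι : ℕ → ℕ), Sm O P n C C' ι := by
  induction C using List.reverseRecOn with
  | nil =>
    intro _
    refine ⟨[], id, ?_, ?_, fun _ => rfl, fun h => absurd rfl h, fun i hi => hi, ?_⟩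
    · intro g hg
      simp at hg
    · simp [csize]
    · intro x hx i hi
      rfl
  | append_singleton C g ih =>
    intro hs
    rw [csize_append, csize_one] at hs
    obtain ⟨C', ι, h⟩ := ih (by omega)
    cases g with
    | nand i j => exact step_nand O P n C C' ι h i j
    | ask l =>
      refine step_ask h1 O P n C C' ι h l (hP _ ?_)
      simp only [Gate.size] at hs
      omega

end Pool.Agent.H46.OM.SUB

namespace Pool.Agent.H46.OM

open Pool.Agent.H75.OM Pool.Agent.H46.OM.SUB

theorem pf_SUB (h1 : T_INL) : T_SUB := by
  intro O P s n C hC hP
  obtain ⟨C', ι, h⟩ := main h1 O P s n hP C hC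
  refine ⟨C', h.na, h.sz.trans (Nat.mul_le_mul_right _ hC), ?_⟩
  intro x hx
  by_cases h0 : C = []
  · rw [h.ni h0, h0, cout_nil, cout_nil]
  · obtain ⟨h2, h3⟩ := h.nn h0
    have hpos : 0 < C.length := List.length_pos_iff.mpr h0
    rw [cout_eq _ _ _ h2, cout_eq _ _ _ h0, hx, ← h3]
    exact h.eq x hx _ (by omega)

end Pool.Agent.H46.OM
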