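import Pool.Agent.H75.OM.TA
import Pool.Agent.H3.NB.L12
import Pool.Agent.H90.AC.W

/-!
# Row SW2 of omn_modules: the conjunction of two formulas becomes a decision tree
-/

set_option autoImplicit false

namespace Pool.Agent.H46.OM

open Finset Pool.Agent.H6.NB Pool.Agent.H70.OQ Pool.Agent.H70.EH Pool.Agent.H70.EI Pool.Agent.H78.XQ
open Pool.Agent.H75.OM
open Pool.Agent.H68.AC (PA Wt fd Ext ind)

/-- conjunction of two trees -/
def cj {V : Type} (t : Pool.Agent.H68.AC.DT V) :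
    Pool.Agent.H68.AC.DT V → Pool.Agent.H68.AC.DT V
  | .leaf b => if b = true then t else .leaf false
  | .node v l r => .node v (cj t l) (cj t r)

theorem cj_depth {V : Type} (t s : Pool.Agent.H68.AC.DT V) :
    (cj t s).depth ≤ s.depth + t.depth := by
  induction s with
  | leaf b =>
    cases b with
    | true => simp [cj]
    | false => simp [cj, Pool.Agent.H68.AC.DT.depth]
  | node v l r ihl ihr =>
    simp only [cj, Pool.Agent.H68.AC.DT.depth]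
    omega

theorem cj_eval {V : Type} (t s : Pool.Agent.H68.AC.DT V) (y : V → Bool) :
    (cj t s).eval y = (s.eval y && t.eval y) := by
  induction s with
  | leaf b =>
    cases b with
    | true => simp [cj, Pool.Agent.H68.AC.DT.eval]
    | false => simp [cj, Pool.Agent.H68.AC.DT.eval]
  | node v l r ihl ihr =>
    simp only [cj, Pool.Agent.H68.AC.DT.eval, ihl, ihr]
    cases y v <;> rfl

theorem ind_nonneg (p : Prop) : 0 ≤ ind p := by
  unfold Pool.Agent.H68.AC.ind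
  split_ifs
  · exact zero_le_one
  · exact le_refl _

theorem ind_le_one (p : Prop) : ind p ≤ 1 := by
  unfold Pool.Agent.H68.AC.ind
  split_ifs
  · exact le_refl _
  · exact zero_le_one

theorem ind_of {p : Prop} (h : p) : ind p = 1 := by
  unfold Pool.Agent.H68.AC.ind
  rw [if_pos h]

theorem ind_not {p : Prop} (h : ¬ p) : ind p = 0 := by
  unfold Pool.Agent.H68.AC.ind
  rw [if_neg h]

/-- the two trees together compute the conjunction -/
theorem two_trees {V : Type} (κ₁ κ₂ : PA V) (g h : (V → Bool) → Bool) (w₁ w₂ : ℕ)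
    (t₁ t₂ : Pool.Agent.H68.AC.DT V) (hd₁ : t₁.depth ≤ w₁) (hd₂ : t₂.depth ≤ w₂)
    (h₁ : ∀ y, Ext κ₁ y → g y = t₁.eval y)
    (h₂ : ∀ y, Ext κ₂ y → rst κ₁ h y = t₂.eval y) :
    ∃ t : Pool.Agent.H68.AC.DT V, t.depth ≤ w₁ + w₂ ∧
      ∀ y, Ext (Pool.Agent.H68.AC.mrg κ₁ κ₂) y → (g y && h y) = t.eval y := by
  obtain ⟨t', ht', he'⟩ := Pool.Agent.H3.NB.L12.tree_subst t₂ κ₂
  refine ⟨cj t' t₁, ?_, ?_⟩
  · have := cj_depth t' t₁
    omega
  · intro y hy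
    have e1 : Ext κ₁ y := by
      intro v b hv
      refine hy v b ?_
      unfold Pool.Agent.H68.AC.mrg
      rw [hv]
    have e2 : Ext κ₂ (fun v => (κ₂ v).getD (y v)) := by
      intro v b hv
      simp only [hv, Option.getD_some]
    have e3 := h₂ _ e2
    have e4 : rst κ₁ h (fun v => (κ₂ v).getD (y v)) = h y := by
      unfold rst
      congr 1
      funext v
      rcases hv : κ₁ v with _ | b
      · rw [Option.getD_none]
        show (κ₂ v).getD (y v) = y v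
        rcases hw : κ₂ v with _ | c
        · rw [Option.getD_none]
        · rw [Option.getD_some]
          symm
          refine hy v c ?_
          unfold Pool.Agent.H68.AC.mrg
          rw [hv]
          exact hw
      · rw [Option.getD_some]
        exact (e1 v b hv).symm
    rw [cj_eval, he', ← e3, e4, h₁ y e1]

theorem pf_SW2 (h1 : Pool.Agent.H78.XQ.T_SWL) (h2 : Pool.Agent.H6.NB.T_CLR) (h3 : T_COM) :
    T_SW2 := by
  intro V _ _ S₁ d₁ w₁ S₂ d₂ w₂ g h hw₁ hw₂ hg hh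
  obtain ⟨Bad1, hb1, hb1'⟩ := h1 V S₁ d₁ w₁ g hw₁ hg
  have hex : ∀ κ : PA V, ∃ Bad : (Fin (d₂ + 1) → PA V) → Prop,
      (∑ R, Wt (1 / (128 * (w₂ : ℝ))) (1 / 2) R * ind (Bad R) ≤
        ((S₂ : ℝ) + 1) ^ (d₂ + 1) / 2 ^ w₂) ∧
      ∀ R, ¬ Bad R → ∃ t : Pool.Agent.H68.AC.DT V, t.depth ≤ w₂ ∧
        ∀ y, Ext (fd R (d₂ + 1)) y → rst κ h y = t.eval y :=
    fun κ => h1 V S₂ d₂ w₂ (rst κ h) hw₂ (h2 V S₂ (d₂ + 1) h κ hh)
  choose Bad2 hb2 hb2' using hex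
  let B : PA V → Prop := fun κ => ¬ ∃ t : Pool.Agent.H68.AC.DT V, t.depth ≤ w₁ + w₂ ∧
      ∀ y, Ext κ y → (g y && h y) = t.eval y
  refine ⟨fun R => B (fd R 1), ?_, fun R hR => not_not.mp hR⟩
  set q₁ : ℝ := 1 / (128 * (w₁ : ℝ)) with hq₁
  set q₂ : ℝ := 1 / (128 * (w₂ : ℝ)) with hq₂
  have hq0 : ∀ w : ℕ, 1 ≤ w → 0 ≤ 1 / (128 * (w : ℝ)) ∧ 1 / (128 * (w : ℝ)) ≤ 1 := by
    intro w hw
    have hw' : (1 : ℝ) ≤ w := by exact_mod_cast hw
    refine ⟨by positivity, ?_⟩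
    rw [div_le_one (by positivity)]
    linarith
  have hW1 : ∀ R : Fin (d₁ + 1) → PA V, 0 ≤ Wt q₁ (1 / 2) R := fun R =>
    Pool.Agent.H90.AC.Wt_nonneg (hq0 w₁ hw₁).1 (hq0 w₁ hw₁).2 (by norm_num) (by norm_num) R
  have hW2 : ∀ R : Fin (d₂ + 1) → PA V, 0 ≤ Wt q₂ (1 / 2) R := fun R =>
    Pool.Agent.H90.AC.Wt_nonneg (hq0 w₂ hw₂).1 (hq0 w₂ hw₂).2 (by norm_num) (by norm_num) R
  have hS1 : ∑ R : Fin (d₁ + 1) → PA V, Wt q₁ (1 / 2) R = 1 := Pool.Agent.H90.AC.sum_Wt _ _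
  have hS2 : ∑ R : Fin (d₂ + 1) → PA V, Wt q₂ (1 / 2) R = 1 := Pool.Agent.H90.AC.sum_Wt _ _
  -- composition of the rounds
  have hcomp : ∑ R : Fin 1 → PA V, Wt (rt w₁ d₁ * rt w₂ d₂) (1 / 2) R * ind (B (fd R 1)) =
      ∑ R : Fin (d₁ + 1) → PA V, Wt q₁ (1 / 2) R * (∑ R' : Fin (d₂ + 1) → PA V,
        Wt q₂ (1 / 2) R' *
          ind (B (Pool.Agent.H68.AC.mrg (fd R (d₁ + 1)) (fd R' (d₂ + 1))))) := by
    have e1 := (h3 V (fun κ => ind (B κ))).2 (rt w₁ d₁) (rt w₂ d₂)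
    have e2 : ∀ κ : PA V, ∑ R' : Fin 1 → PA V, Wt (rt w₂ d₂) (1 / 2) R' *
          ind (B (Pool.Agent.H68.AC.mrg κ (fd R' 1))) =
        ∑ R' : Fin (d₂ + 1) → PA V, Wt q₂ (1 / 2) R' *
          ind (B (Pool.Agent.H68.AC.mrg κ (fd R' (d₂ + 1)))) := by
      intro κ
      exact ((h3 V (fun κ' => ind (B (Pool.Agent.H68.AC.mrg κ κ')))).1 (d₂ + 1) q₂).symm
    have e3 := (h3 V (fun κ => ∑ R' : Fin (d₂ + 1) → PA V, Wt q₂ (1 / 2) R' *
      ind (B (Pool.Agent.H68.AC.mrg κ (fd R' (d₂ + 1)))))).1 (d₁ + 1) q₁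
    rw [e3, ← e1]
    refine Finset.sum_congr rfl fun R _ => ?_
    rw [e2]
    rfl
  have hpt : ∀ (R : Fin (d₁ + 1) → PA V) (R' : Fin (d₂ + 1) → PA V),
      ind (B (Pool.Agent.H68.AC.mrg (fd R (d₁ + 1)) (fd R' (d₂ + 1)))) ≤
        ind (Bad1 R) + ind (Bad2 (fd R (d₁ + 1)) R') := by
    intro R R'
    by_cases hB1 : Bad1 R
    · rw [ind_of hB1]
      linarith [ind_le_one (B (Pool.Agent.H68.AC.mrg (fd R (d₁ + 1)) (fd R' (d₂ + 1)))),
        ind_nonneg (Bad2 (fd R (d₁ + 1)) R')]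
    · by_cases hB2 : Bad2 (fd R (d₁ + 1)) R'
      · rw [ind_of hB2]
        linarith [ind_le_one (B (Pool.Agent.H68.AC.mrg (fd R (d₁ + 1)) (fd R' (d₂ + 1)))),
          ind_nonneg (Bad1 R)]
      · obtain ⟨t₁, ht₁, he₁⟩ := hb1' R hB1
        obtain ⟨t₂, ht₂, he₂⟩ := hb2' _ R' hB2
        have := two_trees _ _ g h w₁ w₂ t₁ t₂ ht₁ ht₂ he₁ he₂
        have hn : ¬ B (Pool.Agent.H68.AC.mrg (fd R (d₁ + 1)) (fd R' (d₂ + 1))) :=
          not_not.mpr this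
        rw [ind_not hn]
        exact add_nonneg (ind_nonneg _) (ind_nonneg _)
  calc ∑ R : Fin 1 → PA V, Wt (rt w₁ d₁ * rt w₂ d₂) (1 / 2) R * ind (B (fd R 1))
      = _ := hcomp
    _ ≤ ∑ R : Fin (d₁ + 1) → PA V, Wt q₁ (1 / 2) R * (∑ R' : Fin (d₂ + 1) → PA V,
        Wt q₂ (1 / 2) R' * (ind (Bad1 R) + ind (Bad2 (fd R (d₁ + 1)) R'))) := by
        refine Finset.sum_le_sum fun R _ => mul_le_mul_of_nonneg_left ?_ (hW1 R)
        exact Finset.sum_le_sum fun R' _ => mul_le_mul_of_nonneg_left (hpt R R') (hW2 R')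
    _ ≤ ∑ R : Fin (d₁ + 1) → PA V, Wt q₁ (1 / 2) R * (ind (Bad1 R) + er S₂ d₂ w₂) := by
        refine Finset.sum_le_sum fun R _ => mul_le_mul_of_nonneg_left ?_ (hW1 R)
        simp only [mul_add]
        rw [Finset.sum_add_distrib, ← Finset.sum_mul, hS2, one_mul]
        exact add_le_add (le_refl _) (hb2 (fd R (d₁ + 1)))
    _ = ∑ R : Fin (d₁ + 1) → PA V, Wt q₁ (1 / 2) R * ind (Bad1 R) + er S₂ d₂ w₂ := by
        simp only [mul_add]
        rw [Finset.sum_add_distrib, ← Finset.sum_mul, hS1, one_mul]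
    _ ≤ er S₁ d₁ w₁ + er S₂ d₂ w₂ := add_le_add hb1 (le_refl _)

end Pool.Agent.H46.OM
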